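import Pool.Agent.H33.G.R_seed8.H319R3.GC.Main
import Pool.Agent.H33.G.R_seed8.H319R2.GContr

/-! First passage multiplicities for generalised Collatz maps of coprime type, in residue classes. -/

set_option autoImplicit false

namespace Pool.Agent.H828R3.GP

open Finset Pool.Agent.H319R3.GC

variable {d : ℕ} {m r : ℕ → ℤ}

theorem toNat_mod (h : 2 ≤ d) (x : ℤ) : ((x % d).toNat : ℤ) = x % d ∧ (x % d).toNat < d := by
  have hd : (0 : ℤ) < d := by exact_mod_cast (by omega : 0 < d)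
  have h0 : 0 ≤ x % d := Int.emod_nonneg _ (by omega)
  have h1 : x % d < d := Int.emod_lt_of_pos _ hd
  have h2 : ((x % d).toNat : ℤ) = x % d := Int.toNat_of_nonneg h0
  refine ⟨h2, ?_⟩
  have : ((x % d).toNat : ℤ) < (d : ℤ) := by rw [h2]; exact h1
  exact_mod_cast this

theorem Tm_eq (h : Adm d m r) (x : ℤ) :
    (d : ℤ) * Tm d m r x = m (x % d).toNat * x - r (x % d).toNat := by
  obtain ⟨h1, h2⟩ := toNat_mod h.two_le x
  unfold Tm
  apply Int.mul_ediv_cancel'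
  have h3 := h.adm _ h2
  have h4 : (d : ℤ) ∣ m (x % d).toNat * (x - ((x % d).toNat : ℤ)) := by
    apply Dvd.dvd.mul_left
    rw [h1]
    exact Int.dvd_self_sub_emod
  have h5 := dvd_add h3 h4
  have h6 : m (x % d).toNat * ((x % d).toNat : ℤ) - r (x % d).toNat
      + m (x % d).toNat * (x - ((x % d).toNat : ℤ)) = m (x % d).toNat * x - r (x % d).toNat := by
    ring
  rwa [h6] at h5

/-- multiplier of the first `n` steps -/
def Mu (d : ℕ) (m r : ℕ → ℤ) (n : ℕ) (x : ℤ) : ℤ :=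
  ∏ j ∈ range n, m (((Tm d m r)^[j] x) % d).toNat

theorem Mu_succ (n : ℕ) (x : ℤ) :
    Mu d m r (n + 1) x = Mu d m r n x * m (((Tm d m r)^[n] x) % d).toNat := by
  unfold Mu; rw [prod_range_succ]

theorem Mu_mem (h : 2 ≤ d) (n : ℕ) (x : ℤ) : Mu d m r n x ∈ Ms d m n := by
  have key : ∀ n : ℕ, ∀ x : ℤ, Mu d m r n x = Mw m (wd d m r n x) := by
    intro n
    induction n with
    | zero => intro x; simp [Mu, wd, Mw]
    | succ n ih =>
      intro x
      have h1 := ih (Tm d m r x)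
      unfold Mu at h1 ⊢
      rw [prod_range_succ']
      simp only [Function.iterate_succ_apply, Function.iterate_zero, id]
      rw [h1]
      simp [wd, Mw, mul_comm]
  rw [key]
  exact mem_image_of_mem _ (wd_mem h n x)

theorem m_abs (h : Adm d m r) {i : ℕ} (hi : i < d) : (1 : ℝ) ≤ |(m i : ℝ)| := by
  have h1 : m i ≠ 0 := by
    intro h0
    have := h.cop i hi
    rw [h0, isCoprime_zero_left, Int.isUnit_iff] at this
    have := h.two_le
    omega
  have := Int.one_le_abs h1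
  exact_mod_cast this

/-- the multiplier describes the iterate with a small relative error -/
theorem approx (h : Adm d m r) {R Y : ℝ} (hR : ∀ i < d, |(r i : ℝ)| ≤ R) (hR0 : 0 ≤ R) (hY : 0 < Y)
    (n : ℕ) {x : ℤ} (hx : ∀ j < n, Y ≤ |(((Tm d m r)^[j] x : ℤ) : ℝ)|) (hn : 2 * n * R ≤ Y) :
    |(Mu d m r n x : ℝ) * x - (d : ℝ) ^ n * (((Tm d m r)^[n] x : ℤ) : ℝ)| ≤
      n * (2 * R / Y) * ((d : ℝ) ^ n * |(((Tm d m r)^[n] x : ℤ) : ℝ)|) := by
  induction n with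
  | zero => simp [Mu]
  | succ n ih =>
    push_cast at hn
    have hnn : (0 : ℝ) ≤ n := Nat.cast_nonneg n
    have ih' := ih (fun j hj => hx j (by omega)) (by nlinarith)
    have hz := hx n (by omega)
    rw [Mu_succ, Function.iterate_succ_apply']
    set z : ℤ := (Tm d m r)^[n] x with hzdef
    have hd0 : (0 : ℝ) < d := by exact_mod_cast (by have := h.two_le; omega : 0 < d)
    obtain ⟨e1, e2⟩ := toNat_mod h.two_le z
    have hTz := Tm_eq h z
    set i := (z % d).toNat with hi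
    have hT : (d : ℝ) * ((Tm d m r z : ℤ) : ℝ) = (m i : ℝ) * z - (r i : ℝ) := by exact_mod_cast hTz
    have hmi := m_abs h e2
    have hri := hR i e2
    push_cast
    set M : ℝ := (Mu d m r n x : ℝ) with hM
    have hsplit : M * m i * x - (d : ℝ) ^ (n + 1) * ((Tm d m r z : ℤ) : ℝ) =
        (m i : ℝ) * (M * x - (d : ℝ) ^ n * z) + (d : ℝ) ^ n * r i := by
      rw [pow_succ]; linear_combination (-(d : ℝ) ^ n) * hT
    have hD : 0 < (d : ℝ) ^ n := by positivity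
    set u : ℝ := |(m i : ℝ)| * |(z : ℝ)| with hu
    have huY : Y ≤ u := by
      rw [hu]
      calc Y ≤ 1 * |(z : ℝ)| := by rw [one_mul]; exact hz
        _ ≤ _ := mul_le_mul_of_nonneg_right hmi (abs_nonneg _)
    set e : ℝ := 2 * R / Y with he
    have he0 : 0 ≤ e := by positivity
    have heY : e * Y = 2 * R := by rw [he]; field_simp
    have k1 : 2 * R ≤ e * u := by rw [← heY]; exact mul_le_mul_of_nonneg_left huY he0
    have k2 : ((n : ℝ) + 1) * e ≤ 1 := by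
      rw [he, mul_div_assoc', div_le_one hY]; linarith
    have k3 : ((n : ℝ) + 1) * e * R ≤ 1 * R := mul_le_mul_of_nonneg_right k2 hR0
    have hTabs : u - R ≤ (d : ℝ) * |((Tm d m r z : ℤ) : ℝ)| := by
      have h1 : (d : ℝ) * |((Tm d m r z : ℤ) : ℝ)| = |(m i : ℝ) * z - (r i : ℝ)| := by
        rw [← hT, abs_mul, abs_of_pos hd0]
      rw [h1]
      have h2 := abs_sub_abs_le_abs_sub ((m i : ℝ) * z) (r i : ℝ)
      rw [abs_mul] at h2
      linarith
    have hstep : |M * m i * x - (d : ℝ) ^ (n + 1) * ((Tm d m r z : ℤ) : ℝ)| ≤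
        (n * e) * ((d : ℝ) ^ n * u) + (d : ℝ) ^ n * R := by
      rw [hsplit]
      refine (abs_add_le _ _).trans (add_le_add ?_ ?_)
      · rw [abs_mul]
        calc |(m i : ℝ)| * |M * x - (d : ℝ) ^ n * z|
            ≤ |(m i : ℝ)| * (n * e * ((d : ℝ) ^ n * |(z : ℝ)|)) :=
              mul_le_mul_of_nonneg_left ih' (abs_nonneg _)
          _ = _ := by rw [hu]; ring
      · rw [abs_mul, abs_of_pos hD]
        exact mul_le_mul_of_nonneg_left hri hD.le
    refine hstep.trans ?_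
    have h5 : ((n : ℝ) + 1) * e * ((d : ℝ) ^ n * (u - R)) ≤
        ((n : ℝ) + 1) * e * ((d : ℝ) ^ (n + 1) * |((Tm d m r z : ℤ) : ℝ)|) := by
      apply mul_le_mul_of_nonneg_left _ (by positivity)
      rw [pow_succ, mul_assoc]
      exact mul_le_mul_of_nonneg_left hTabs hD.le
    refine le_trans ?_ h5
    have h6 : (n * e) * u + R ≤ ((n : ℝ) + 1) * e * (u - R) := by nlinarith
    calc (n * e) * ((d : ℝ) ^ n * u) + (d : ℝ) ^ n * R = (d : ℝ) ^ n * ((n * e) * u + R) := by ring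
      _ ≤ (d : ℝ) ^ n * (((n : ℝ) + 1) * e * (u - R)) := mul_le_mul_of_nonneg_left h6 hD.le
      _ = _ := by ring

/-- integers in a class mod `q` within a short interval -/
theorem card_ap (S : Finset ℤ) (q : ℕ) (hq : 0 < q) (c : ℤ) (L : ℝ) (hL : 0 ≤ L)
    (h1 : ∀ x ∈ S, (q : ℤ) ∣ x - c) (h2 : ∀ x ∈ S, ∀ z ∈ S, ((x - z : ℤ) : ℝ) ≤ L) :
    (S.card : ℝ) ≤ L / q + 1 := by
  have hqR : (0 : ℝ) < q := by exact_mod_cast hq
  rcases S.eq_empty_or_nonempty with h0 | h0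
  · rw [h0, card_empty, Nat.cast_zero]; positivity
  · set a := S.min' h0 with ha
    have ha' : a ∈ S := S.min'_mem h0
    have hdv : ∀ x ∈ S, ∃ t : ℕ, x = a + q * t ∧ t ≤ ⌊L / q⌋₊ := by
      intro x hx
      have h3 : a ≤ x := S.min'_le x hx
      have h4 : (q : ℤ) ∣ x - a := by
        have := dvd_sub (h1 x hx) (h1 a ha')
        rwa [sub_sub_sub_cancel_right] at this
      obtain ⟨t, ht⟩ := h4
      have ht0 : 0 ≤ t := by
        by_contra hcon
        push Not at hcon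
        have hqz : (0 : ℤ) < q := by exact_mod_cast hq
        nlinarith
      obtain ⟨t', rfl⟩ := Int.eq_ofNat_of_zero_le ht0
      refine ⟨t', by linarith, ?_⟩
      apply Nat.le_floor
      rw [le_div_iff₀ hqR]
      have h5 := h2 x hx a ha'
      rw [ht] at h5
      push_cast at h5
      linarith
    have hsub : S ⊆ (range (⌊L / q⌋₊ + 1)).image (fun t : ℕ => a + (q : ℤ) * t) := by
      intro x hx
      obtain ⟨t, h3, h4⟩ := hdv x hx
      rw [mem_image]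
      exact ⟨t, mem_range.2 (by omega), h3.symm⟩
    have h3 := (card_le_card hsub).trans card_image_le
    rw [card_range] at h3
    have h4 : (⌊L / q⌋₊ : ℝ) ≤ L / q := Nat.floor_le (by positivity)
    have h5 : (S.card : ℝ) ≤ (⌊L / q⌋₊ : ℝ) + 1 := by exact_mod_cast h3
    linarith

/-- first passage below `d ^ i` after exactly `n` steps -/
def FP (d : ℕ) (m r : ℕ → ℤ) (i n : ℕ) (x : ℤ) : Prop :=
  (∀ j < n, (d : ℝ) ^ i ≤ |(((Tm d m r)^[j] x : ℤ) : ℝ)|) ∧ |(((Tm d m r)^[n] x : ℤ) : ℝ)| < (d : ℝ) ^ i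

theorem fiber (h : Adm d m r) {R : ℝ} (hR : ∀ i < d, |(r i : ℝ)| ≤ R) (hR0 : 0 ≤ R) {k i n : ℕ}
    (hi : 1 ≤ i) (hik : i ≤ k) (hn : 4 * n * R ≤ (d : ℝ) ^ i) (S : Finset ℤ) {q : ℕ} (hq : 0 < q)
    (c M y : ℤ)
    (hS : ∀ x ∈ S, |(x : ℝ)| < (d : ℝ) ^ k ∧ (q : ℤ) ∣ x - c ∧ FP d m r i n x ∧
      (Tm d m r)^[n] x = y ∧ Mu d m r n x = M) (hy : (d : ℝ) ^ (i - 1) ≤ |(y : ℝ)|) :
    (S.card : ℝ) ≤ 8 * n * R * (d : ℝ) ^ (k - i + 1) / q + 1 := by
  have hd0 : (0 : ℝ) < d := by exact_mod_cast (by have := h.two_le; omega : 0 < d)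
  have hnn : (0 : ℝ) ≤ n := Nat.cast_nonneg n
  have hY : 0 < (d : ℝ) ^ i := by positivity
  have hD : 0 < (d : ℝ) ^ n := by positivity
  have key : ∀ x ∈ S, |(M : ℝ) * x - (d : ℝ) ^ n * y| ≤ 2 * n * R * (d : ℝ) ^ n ∧
      (d : ℝ) ^ n ≤ 2 * |(M : ℝ)| * (d : ℝ) ^ (k - i + 1) := by
    intro x hx
    obtain ⟨h1, h2, h3, h4, h5⟩ := hS x hx
    have h6 := approx h hR hR0 hY n h3.1 (by nlinarith)
    have h7 := h3.2
    rw [h4] at h6 h7
    rw [h5] at h6
    constructor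
    · refine h6.trans ?_
      calc n * (2 * R / (d : ℝ) ^ i) * ((d : ℝ) ^ n * |(y : ℝ)|)
          ≤ n * (2 * R / (d : ℝ) ^ i) * ((d : ℝ) ^ n * (d : ℝ) ^ i) := by
            apply mul_le_mul_of_nonneg_left _ (by positivity)
            exact mul_le_mul_of_nonneg_left h7.le hD.le
        _ = _ := by field_simp
    · have h8 : n * (2 * R / (d : ℝ) ^ i) ≤ 1 / 2 := by
        rw [mul_div_assoc', div_le_iff₀ hY]; linarith
      have h9 : |(M : ℝ) * x - (d : ℝ) ^ n * y| ≤ 1 / 2 * ((d : ℝ) ^ n * |(y : ℝ)|) :=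
        h6.trans (mul_le_mul_of_nonneg_right h8 (by positivity))
      have h10 : (d : ℝ) ^ n * |(y : ℝ)| ≤ 2 * (|(M : ℝ)| * |(x : ℝ)|) := by
        have e1 : (d : ℝ) ^ n * |(y : ℝ)| = |(d : ℝ) ^ n * y| := by rw [abs_mul, abs_of_pos hD]
        have e2 := abs_sub_abs_le_abs_sub ((d : ℝ) ^ n * y) ((M : ℝ) * x)
        rw [abs_sub_comm, ← e1, abs_mul (M : ℝ)] at e2
        linarith
      have h11 : (d : ℝ) ^ n * (d : ℝ) ^ (i - 1) ≤ 2 * |(M : ℝ)| * (d : ℝ) ^ k := by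
        calc (d : ℝ) ^ n * (d : ℝ) ^ (i - 1) ≤ (d : ℝ) ^ n * |(y : ℝ)| :=
              mul_le_mul_of_nonneg_left hy hD.le
          _ ≤ 2 * (|(M : ℝ)| * |(x : ℝ)|) := h10
          _ ≤ 2 * (|(M : ℝ)| * (d : ℝ) ^ k) := by
              apply mul_le_mul_of_nonneg_left _ (by norm_num)
              exact mul_le_mul_of_nonneg_left h1.le (abs_nonneg _)
          _ = _ := by ring
      have h12 : (d : ℝ) ^ k = (d : ℝ) ^ (k - i + 1) * (d : ℝ) ^ (i - 1) := by
        rw [← pow_add]; congr 1; omega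
      rw [h12, ← mul_assoc] at h11
      exact le_of_mul_le_mul_right h11 (by positivity)
  apply card_ap S q hq c _ (by positivity) (fun x hx => (hS x hx).2.1)
  intro x hx z hz
  obtain ⟨a1, a2⟩ := key x hx
  obtain ⟨b1, b2⟩ := key z hz
  have hM0 : 0 < |(M : ℝ)| := by
    by_contra hcon
    push Not at hcon
    have : |(M : ℝ)| = 0 := le_antisymm hcon (abs_nonneg _)
    rw [this, mul_zero, zero_mul] at a2
    linarith
  have h3 : |(M : ℝ)| * |(x : ℝ) - z| ≤ 4 * n * R * (d : ℝ) ^ n := by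
    rw [← abs_mul]
    have : (M : ℝ) * ((x : ℝ) - z) = ((M : ℝ) * x - (d : ℝ) ^ n * y) - ((M : ℝ) * z - (d : ℝ) ^ n * y) := by
      ring
    rw [this]
    refine (abs_sub _ _).trans ?_
    linarith
  have h4 : |(M : ℝ)| * |(x : ℝ) - z| ≤ |(M : ℝ)| * (8 * n * R * (d : ℝ) ^ (k - i + 1)) := by
    refine h3.trans ?_
    calc 4 * n * R * (d : ℝ) ^ n ≤ 4 * n * R * (2 * |(M : ℝ)| * (d : ℝ) ^ (k - i + 1)) :=
          mul_le_mul_of_nonneg_left a2 (by positivity)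
      _ = _ := by ring
  have h5 := le_of_mul_le_mul_left h4 hM0
  push_cast
  exact (le_abs_self _).trans h5

open Classical in
/-- the points of `(-d^k, d^k)` in the class of `c` mod `q` whose first passage below `d^i` is in `B` -/
noncomputable def Pa (d : ℕ) (m r : ℕ → ℤ) (k i N q : ℕ) (c : ℤ) (B : Finset ℤ) : Finset ℤ :=
  (Icc (-(d : ℤ) ^ k) ((d : ℤ) ^ k)).filter (fun x => |(x : ℝ)| < (d : ℝ) ^ k ∧ (q : ℤ) ∣ x - c ∧
    ∃ n ≤ N, FP d m r i n x ∧ (Tm d m r)^[n] x ∈ B)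

theorem mem_Icc_of_abs {k : ℕ} {x : ℤ} (hx : |(x : ℝ)| < (d : ℝ) ^ k) :
    x ∈ Icc (-(d : ℤ) ^ k) ((d : ℤ) ^ k) := by
  have h1 : |x| < (d : ℤ) ^ k := by exact_mod_cast hx
  rw [abs_lt] at h1
  rw [mem_Icc]
  exact ⟨h1.1.le, h1.2.le⟩

theorem card_Pa (h : Adm d m r) {R : ℝ} (hR : ∀ i < d, |(r i : ℝ)| ≤ R) (hR0 : 0 ≤ R) {k i N q : ℕ}
    (hi : 1 ≤ i) (hik : i ≤ k) (hN : 4 * N * R ≤ (d : ℝ) ^ i) (hq : 0 < q) (c : ℤ) (B : Finset ℤ)
    (hB : ∀ y ∈ B, (d : ℝ) ^ (i - 1) ≤ |(y : ℝ)|) :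
    ((Pa d m r k i N q c B).card : ℝ) ≤
      B.card * ((N + 1) * ((N + 1) ^ d * (8 * N * R * (d : ℝ) ^ (k - i + 1) / q + 1))) := by
  classical
  have hqR : (0 : ℝ) < q := by exact_mod_cast hq
  have hd0 : (0 : ℝ) < d := by exact_mod_cast (by have := h.two_le; omega : 0 < d)
  set E : ℝ := 8 * N * R * (d : ℝ) ^ (k - i + 1) / q + 1 with hE
  have hE0 : 0 ≤ E := by positivity
  set Fi : ℤ → ℕ → ℤ → Finset ℤ := fun y n M => (Pa d m r k i N q c B).filter
    (fun x => FP d m r i n x ∧ (Tm d m r)^[n] x = y ∧ Mu d m r n x = M) with hFi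
  have hsub : Pa d m r k i N q c B ⊆ B.biUnion (fun y => (range (N + 1)).biUnion (fun n =>
      (Ms d m n).biUnion (fun M => Fi y n M))) := by
    intro x hx
    have hx' := hx
    unfold Pa at hx'
    rw [mem_filter] at hx'
    obtain ⟨_, _, _, n, hn, hfp, hB'⟩ := hx'
    rw [mem_biUnion]
    refine ⟨_, hB', ?_⟩
    rw [mem_biUnion]
    refine ⟨n, mem_range.2 (by omega), ?_⟩
    rw [mem_biUnion]
    refine ⟨Mu d m r n x, Mu_mem h.two_le n x, ?_⟩
    rw [hFi]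
    exact mem_filter.2 ⟨hx, hfp, rfl, rfl⟩
  have hfib : ∀ y ∈ B, ∀ n ∈ range (N + 1), ∀ M ∈ Ms d m n, ((Fi y n M).card : ℝ) ≤ E := by
    intro y hy n hn M _
    rw [mem_range] at hn
    have hnN : (n : ℝ) ≤ N := by exact_mod_cast (by omega : n ≤ N)
    have hnn : (0 : ℝ) ≤ n := Nat.cast_nonneg n
    have h1 := fiber h hR hR0 (k := k) (i := i) (n := n) hi hik (by
      refine le_trans ?_ hN
      apply mul_le_mul_of_nonneg_right _ hR0
      linarith) (Fi y n M) hq c M y (by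
      intro x hx
      rw [hFi] at hx
      simp only [mem_filter, Pa] at hx
      obtain ⟨⟨_, h1, h2, _⟩, h3, h4, h5⟩ := hx
      exact ⟨h1, h2, h3, h4, h5⟩) (hB y hy)
    refine h1.trans ?_
    rw [hE]
    have : 8 * (n : ℝ) * R * (d : ℝ) ^ (k - i + 1) / q ≤ 8 * N * R * (d : ℝ) ^ (k - i + 1) / q := by
      apply div_le_div_of_nonneg_right _ hqR.le
      apply mul_le_mul_of_nonneg_right _ (by positivity)
      apply mul_le_mul_of_nonneg_right _ hR0
      linarith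
    linarith
  have h1 : ((Pa d m r k i N q c B).card : ℝ) ≤
      ∑ y ∈ B, ∑ n ∈ range (N + 1), ∑ M ∈ Ms d m n, ((Fi y n M).card : ℝ) := by
    have : (Pa d m r k i N q c B).card ≤ ∑ y ∈ B, ∑ n ∈ range (N + 1), ∑ M ∈ Ms d m n, (Fi y n M).card := by
      refine (card_le_card hsub).trans ?_
      refine card_biUnion_le.trans (sum_le_sum fun y _ => ?_)
      refine card_biUnion_le.trans (sum_le_sum fun n _ => ?_)
      exact card_biUnion_le
    exact_mod_cast this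
  refine h1.trans ?_
  have h2 : ∀ y ∈ B, ∑ n ∈ range (N + 1), ∑ M ∈ Ms d m n, ((Fi y n M).card : ℝ) ≤
      (N + 1) * ((N + 1) ^ d * E) := by
    intro y hy
    have h3 : ∀ n ∈ range (N + 1), ∑ M ∈ Ms d m n, ((Fi y n M).card : ℝ) ≤ ((N : ℝ) + 1) ^ d * E := by
      intro n hn
      refine (sum_le_card_nsmul _ _ E (hfib y hy n hn)).trans ?_
      rw [nsmul_eq_mul]
      apply mul_le_mul_of_nonneg_right _ hE0
      have h4 : ((Ms d m n).card : ℝ) ≤ ((n : ℝ) + 1) ^ d := by exact_mod_cast card_Ms (d := d) (m := m) n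
      refine h4.trans ?_
      rw [mem_range] at hn
      have hnN : (n : ℝ) ≤ N := by exact_mod_cast (by omega : n ≤ N)
      exact pow_le_pow_left₀ (by positivity) (by linarith) d
    refine (sum_le_card_nsmul _ _ _ h3).trans ?_
    rw [card_range, nsmul_eq_mul]
    push_cast
    exact le_refl _
  refine (sum_le_card_nsmul _ _ _ h2).trans ?_
  rw [nsmul_eq_mul]

open Classical in
/-- the points that may fail to pass below `d^(i-1)` -/
noncomputable def St (d : ℕ) (m r : ℕ → ℤ) (i : ℕ) : Finset ℤ :=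
  (Icc (-(d : ℤ) ^ i) ((d : ℤ) ^ i)).filter (fun y => (d : ℝ) ^ (i - 1) ≤ |(y : ℝ)| ∧
    (d : ℝ) ^ i < 2 * d * |(Mu d m r i y : ℝ)|)

/-- the associated structure of `H319R2.G` -/
def gc (h : Adm d m r) : Pool.Agent.H319R2.G.GC where
  d := d
  m := fun i => m i.toNat
  r := fun i => r i.toNat
  two_le := h.two_le
  cop := by
    intro i h0 h1
    exact h.cop _ (by omega)
  dvd := by
    intro i h0 h1
    have := h.adm i.toNat (by omega)
    rwa [Int.toNat_of_nonneg h0] at this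

theorem gc_T (h : Adm d m r) : (gc h).T = Tm d m r := rfl

theorem gc_prod (h : Adm d m r) (k : ℕ) (x : ℤ) :
    (gc h).prod k x = |(Mu d m r k x : ℝ)| / (d : ℝ) ^ k := by
  unfold Pool.Agent.H319R2.G.GC.prod Mu
  rw [gc_T]
  push_cast
  rw [Finset.abs_prod]
  have : ∀ j ∈ range k, (gc h).a ((Tm d m r)^[j] x % (gc h).d) =
      |((m (((Tm d m r)^[j] x) % d).toNat : ℤ) : ℝ)| / d := by
    intro j _
    rfl
  rw [prod_congr rfl this, prod_div_distrib, prod_const, card_range]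

theorem card_St (h : Adm d m r) {s : ℝ} (hs : 0 ≤ s) (i : ℕ) :
    ((St d m r i).card : ℝ) ≤ 3 * (2 * d) ^ s * (∑ j ∈ range d, (|(m j : ℝ)| / d) ^ s) ^ i := by
  classical
  have hd0 : (0 : ℝ) < d := by exact_mod_cast (by have := h.two_le; omega : 0 < d)
  have h1 := (gc h).card_large i (1 / (2 * d)) s (by positivity) hs (St d m r i) (by
    intro x hx
    unfold St at hx
    rw [mem_filter, mem_Icc] at hx
    obtain ⟨⟨h1, h2⟩, h3, h4⟩ := hx
    refine ⟨abs_le.2 ⟨h1, h2⟩, ?_⟩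
    rw [gc_prod, div_lt_div_iff₀ (by positivity) (by positivity), one_mul]
    linarith)
  have e1 : (1 / (1 / (2 * (d : ℝ)))) = 2 * d := by field_simp
  rw [e1] at h1
  refine h1.trans (le_of_eq ?_)
  rfl

/-- outside of the stuck set the orbit passes below `d^(i-1)` -/
theorem pass_next (h : Adm d m r) {R : ℝ} (hR : ∀ i < d, |(r i : ℝ)| ≤ R) (hR0 : 0 ≤ R) {i : ℕ}
    (hi : 1 ≤ i) (hiR : 4 * i * R ≤ (d : ℝ) ^ (i - 1)) {y : ℤ} (hy : |(y : ℝ)| < (d : ℝ) ^ i)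
    (hns : y ∉ St d m r i) : ∃ j ≤ i, |(((Tm d m r)^[j] y : ℤ) : ℝ)| < (d : ℝ) ^ (i - 1) := by
  by_contra hcon
  push Not at hcon
  have hd0 : (0 : ℝ) < d := by exact_mod_cast (by have := h.two_le; omega : 0 < d)
  have hY : 0 < (d : ℝ) ^ (i - 1) := by positivity
  have hD : 0 < (d : ℝ) ^ i := by positivity
  have hii : (0 : ℝ) ≤ i := Nat.cast_nonneg i
  apply hns
  unfold St
  rw [mem_filter]
  refine ⟨mem_Icc_of_abs hy, ?_, ?_⟩
  · simpa using hcon 0 (by omega)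
  · have h6 := approx h hR hR0 hY i (x := y) (fun j hj => hcon j hj.le) (by nlinarith)
    set z : ℝ := (((Tm d m r)^[i] y : ℤ) : ℝ) with hz
    set M : ℝ := (Mu d m r i y : ℝ) with hM
    have h8 : i * (2 * R / (d : ℝ) ^ (i - 1)) ≤ 1 / 2 := by
      rw [mul_div_assoc', div_le_iff₀ hY]; linarith
    have h9 : |M * y - (d : ℝ) ^ i * z| ≤ 1 / 2 * ((d : ℝ) ^ i * |z|) :=
      h6.trans (mul_le_mul_of_nonneg_right h8 (by positivity))
    have h10 : (d : ℝ) ^ i * |z| ≤ 2 * (|M| * |(y : ℝ)|) := by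
      have e1 : (d : ℝ) ^ i * |z| = |(d : ℝ) ^ i * z| := by rw [abs_mul, abs_of_pos hD]
      have e2 := abs_sub_abs_le_abs_sub ((d : ℝ) ^ i * z) (M * y)
      rw [abs_sub_comm, ← e1, abs_mul M] at e2
      linarith
    have h11 : (d : ℝ) ^ (i - 1) ≤ |z| := hcon i le_rfl
    have h12 : (d : ℝ) ^ i * (d : ℝ) ^ (i - 1) ≤ 2 * (|M| * |(y : ℝ)|) :=
      (mul_le_mul_of_nonneg_left h11 hD.le).trans h10
    have hM0 : 0 < |M| := by
      by_contra hc
      push Not at hc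
      have : |M| = 0 := le_antisymm hc (abs_nonneg _)
      rw [this, zero_mul, mul_zero] at h12
      have : 0 < (d : ℝ) ^ i * (d : ℝ) ^ (i - 1) := by positivity
      linarith
    have h13 : (d : ℝ) ^ i * (d : ℝ) ^ (i - 1) < (d : ℝ) ^ i * (2 * |M|) := by
      calc (d : ℝ) ^ i * (d : ℝ) ^ (i - 1) ≤ 2 * (|M| * |(y : ℝ)|) := h12
        _ < 2 * (|M| * (d : ℝ) ^ i) := by
            apply mul_lt_mul_of_pos_left _ (by norm_num)
            exact mul_lt_mul_of_pos_left hy hM0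
        _ = _ := by ring
    have h14 : (d : ℝ) ^ (i - 1) < 2 * |M| := lt_of_mul_lt_mul_left h13 hD.le
    have e : (d : ℝ) ^ i = d * (d : ℝ) ^ (i - 1) := by rw [← pow_succ']; congr 1; omega
    rw [e]
    calc (d : ℝ) * (d : ℝ) ^ (i - 1) < d * (2 * |M|) := mul_lt_mul_of_pos_left h14 hd0
      _ = _ := by ring

theorem fp_step (h : Adm d m r) {R : ℝ} (hR : ∀ i < d, |(r i : ℝ)| ≤ R) (hR0 : 0 ≤ R) {i n : ℕ}
    (hi : 1 ≤ i) (hiR : 4 * i * R ≤ (d : ℝ) ^ (i - 1)) {x : ℤ} (hfp : FP d m r i n x)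
    (hns : (Tm d m r)^[n] x ∉ St d m r i) : ∃ n' ≤ n + i, FP d m r (i - 1) n' x := by
  classical
  have hd1 : (1 : ℝ) ≤ d := by exact_mod_cast (by have := h.two_le; omega : 1 ≤ d)
  have hpow : (d : ℝ) ^ (i - 1) ≤ (d : ℝ) ^ i := pow_le_pow_right₀ hd1 (by omega)
  obtain ⟨j, hj, hjl⟩ := pass_next h hR hR0 hi hiR hfp.2 hns
  have hex : ∃ j, |(((Tm d m r)^[j] ((Tm d m r)^[n] x) : ℤ) : ℝ)| < (d : ℝ) ^ (i - 1) := ⟨j, hjl⟩
  refine ⟨n + Nat.find hex, Nat.add_le_add_left ((Nat.find_min' hex hjl).trans hj) _, ?_, ?_⟩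
  · intro t ht
    rcases Nat.lt_or_ge t n with h3 | h3
    · exact hpow.trans (hfp.1 t h3)
    · obtain ⟨u, rfl⟩ := Nat.exists_eq_add_of_le h3
      have := Nat.find_min hex (m := u) (by omega)
      rw [← Function.iterate_add_apply, add_comm, not_lt] at this
      exact this
  · have := Nat.find_spec hex
    rwa [← Function.iterate_add_apply, add_comm] at this

theorem descend (h : Adm d m r) {R : ℝ} (hR : ∀ i < d, |(r i : ℝ)| ≤ R) (hR0 : 0 ≤ R) {k l : ℕ}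
    (hl : 4 * k * R ≤ (d : ℝ) ^ l) {x : ℤ} (hxk : |(x : ℝ)| < (d : ℝ) ^ k)
    (hbad : ∀ i, l < i → i ≤ k → ∀ n ≤ k * k, FP d m r i n x → (Tm d m r)^[n] x ∉ St d m r i) :
    ∀ e, l + e ≤ k → ∃ n ≤ e * k, FP d m r (k - e) n x := by
  have hd1 : (1 : ℝ) ≤ d := by exact_mod_cast (by have := h.two_le; omega : 1 ≤ d)
  intro e
  induction e with
  | zero => intro _; exact ⟨0, by simp, by intro j hj; omega, by simpa using hxk⟩
  | succ e ih =>
    intro he
    obtain ⟨n, hn, hfp⟩ := ih (by omega)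
    have hnM : n ≤ k * k := hn.trans (Nat.mul_le_mul_right _ (by omega))
    obtain ⟨n', h1, h2⟩ := fp_step h hR hR0 (i := k - e) (by omega) (by
      have hi : ((k - e : ℕ) : ℝ) ≤ k := by exact_mod_cast Nat.sub_le _ _
      calc 4 * ((k - e : ℕ) : ℝ) * R ≤ 4 * k * R := by
            apply mul_le_mul_of_nonneg_right _ hR0
            linarith
        _ ≤ (d : ℝ) ^ l := hl
        _ ≤ (d : ℝ) ^ (k - e - 1) := pow_le_pow_right₀ hd1 (by omega)) hfp
      (hbad _ (by omega) (by omega) n hnM hfp)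
    refine ⟨n', ?_, by rwa [Nat.sub_sub] at h2⟩
    rw [add_mul, one_mul]
    omega

/-- THE POINTS OF A CLASS THAT STAY ABOVE `d^l` -/
theorem card_stay (h : Adm d m r) {R : ℝ} (hR : ∀ i < d, |(r i : ℝ)| ≤ R) (hR0 : 0 ≤ R) {s K : ℝ}
    (hs : 0 ≤ s) (hK1 : 1 ≤ K) (hK : ∑ j ∈ range d, (|(m j : ℝ)| / d) ^ s ≤ K) (hKd : K < d)
    {k l q : ℕ} (hq : 0 < q) (c : ℤ) (hk1 : 1 ≤ k) (hlk : l ≤ k)
    (hl : 4 * (k * k) * R ≤ (d : ℝ) ^ l) (S : Finset ℤ)
    (hS : ∀ x ∈ S, |(x : ℝ)| < (d : ℝ) ^ k ∧ (q : ℤ) ∣ x - c ∧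
      ∀ n : ℕ, (d : ℝ) ^ l ≤ |(((Tm d m r)^[n] x : ℤ) : ℝ)|) :
    (S.card : ℝ) ≤ k * (3 * (2 * d) ^ s * ((k * k + 1) ^ (d + 1) *
      (8 * (k * k) * R * d * ((d : ℝ) ^ k * (K / d) ^ l) / q + (d : ℝ) ^ k * (K / d) ^ k))) := by
  classical
  have hqR : (0 : ℝ) < q := by exact_mod_cast hq
  have hd1 : (1 : ℝ) ≤ d := by exact_mod_cast (by have := h.two_le; omega : 1 ≤ d)
  have hd0 : (0 : ℝ) < d := by linarith
  have hkR : (1 : ℝ) ≤ k := by exact_mod_cast hk1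
  have hK0 : 0 < K := by linarith
  have hκ1 : K / d ≤ 1 := by rw [div_le_one hd0]; exact hKd.le
  have hκ0 : 0 ≤ K / d := by positivity
  have hsum0 : 0 ≤ ∑ j ∈ range d, (|(m j : ℝ)| / d) ^ s := sum_nonneg fun j _ => by positivity
  have hsub : S ⊆ (Ioc l k).biUnion (fun i => Pa d m r k i (k * k) q c (St d m r i)) := by
    intro x hx
    obtain ⟨h1, h2, h3⟩ := hS x hx
    by_contra hcon
    simp only [mem_biUnion, mem_Ioc, not_exists, not_and] at hcon
    obtain ⟨n, -, hfp⟩ := descend h hR hR0 (k := k) (l := l) (by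
      refine le_trans ?_ hl
      apply mul_le_mul_of_nonneg_right _ hR0
      nlinarith) h1 (by
      intro i hi hik n hn hfp hst
      apply hcon i ⟨hi, hik⟩
      unfold Pa
      rw [mem_filter]
      exact ⟨mem_Icc_of_abs h1, h1, h2, n, hn, hfp, hst⟩) (k - l) (by omega)
    have e : k - (k - l) = l := by omega
    rw [e] at hfp
    have h4 := hfp.2
    have h5 := h3 n
    linarith
  have h1 : (S.card : ℝ) ≤ ∑ i ∈ Ioc l k, ((Pa d m r k i (k * k) q c (St d m r i)).card : ℝ) := by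
    exact_mod_cast (card_le_card hsub).trans card_biUnion_le
  set W : ℝ := 3 * (2 * d) ^ s * ((k * k + 1) ^ (d + 1) *
      (8 * (k * k) * R * d * ((d : ℝ) ^ k * (K / d) ^ l) / q + (d : ℝ) ^ k * (K / d) ^ k)) with hW
  have hW0 : 0 ≤ W := by positivity
  have h2 : ∀ i ∈ Ioc l k, ((Pa d m r k i (k * k) q c (St d m r i)).card : ℝ) ≤ W := by
    intro i hi
    rw [mem_Ioc] at hi
    have a1 := card_Pa h hR hR0 (k := k) (i := i) (N := k * k) (q := q) (by omega) hi.2 (by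
      push_cast
      exact hl.trans (pow_le_pow_right₀ hd1 hi.1.le)) hq c (St d m r i) (by
      intro y hy
      unfold St at hy
      rw [mem_filter] at hy
      exact hy.2.1)
    have a2 := card_St h hs i
    have a3 : (∑ j ∈ range d, (|(m j : ℝ)| / d) ^ s) ^ i ≤ K ^ i := pow_le_pow_left₀ hsum0 hK i
    refine a1.trans ?_
    push_cast
    have a4 : K ^ i ≤ K ^ k := pow_le_pow_right₀ hK1 hi.2
    have a5 : K ^ i * (d : ℝ) ^ (k - i + 1) ≤ d * ((d : ℝ) ^ k * (K / d) ^ l) := by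
      have e1 : K ^ i = (d : ℝ) ^ i * (K / d) ^ i := by rw [← mul_pow]; congr 1; field_simp
      have e2 : (K / d) ^ i ≤ (K / d) ^ l := pow_le_pow_of_le_one hκ0 hκ1 hi.1.le
      have e3 : (d : ℝ) ^ i * (d : ℝ) ^ (k - i + 1) = d * (d : ℝ) ^ k := by
        rw [← pow_add, ← pow_succ']; congr 1; omega
      calc K ^ i * (d : ℝ) ^ (k - i + 1) = ((d : ℝ) ^ i * (d : ℝ) ^ (k - i + 1)) * (K / d) ^ i := by
            rw [e1]; ring
        _ ≤ ((d : ℝ) ^ i * (d : ℝ) ^ (k - i + 1)) * (K / d) ^ l :=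
            mul_le_mul_of_nonneg_left e2 (by positivity)
        _ = _ := by rw [e3]; ring
    have a6 : K ^ k = (d : ℝ) ^ k * (K / d) ^ k := by rw [← mul_pow]; congr 1; field_simp
    have a7 : (St d m r i).card * (8 * ((k : ℝ) * k) * R * (d : ℝ) ^ (k - i + 1) / q + 1) ≤
        3 * (2 * d) ^ s * (8 * (k * k) * R * d * ((d : ℝ) ^ k * (K / d) ^ l) / q +
          (d : ℝ) ^ k * (K / d) ^ k) := by
      have b1 : ((St d m r i).card : ℝ) ≤ 3 * (2 * d) ^ s * K ^ i :=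
        a2.trans (mul_le_mul_of_nonneg_left a3 (by positivity))
      refine (mul_le_mul_of_nonneg_right b1 (by positivity)).trans ?_
      rw [mul_assoc (3 * (2 * (d : ℝ)) ^ s)]
      apply mul_le_mul_of_nonneg_left _ (by positivity)
      rw [mul_add, mul_one]
      apply add_le_add
      · calc K ^ i * (8 * ((k : ℝ) * k) * R * (d : ℝ) ^ (k - i + 1) / q)
            = 8 * ((k : ℝ) * k) * R * (K ^ i * (d : ℝ) ^ (k - i + 1)) / q := by ring
          _ ≤ 8 * ((k : ℝ) * k) * R * (d * ((d : ℝ) ^ k * (K / d) ^ l)) / q := by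
              apply div_le_div_of_nonneg_right _ hqR.le
              exact mul_le_mul_of_nonneg_left a5 (by positivity)
          _ = _ := by ring
      · rw [← a6]; exact a4
    calc ((St d m r i).card : ℝ) * ((k * k + 1) * ((k * k + 1) ^ d *
          (8 * (k * k) * R * (d : ℝ) ^ (k - i + 1) / q + 1)))
        = (k * k + 1) ^ (d + 1) * ((St d m r i).card *
          (8 * ((k : ℝ) * k) * R * (d : ℝ) ^ (k - i + 1) / q + 1)) := by ring
      _ ≤ (k * k + 1) ^ (d + 1) * (3 * (2 * d) ^ s *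
          (8 * (k * k) * R * d * ((d : ℝ) ^ k * (K / d) ^ l) / q + (d : ℝ) ^ k * (K / d) ^ k)) :=
          mul_le_mul_of_nonneg_left a7 (by positivity)
      _ = W := by rw [hW]; ring
  calc (S.card : ℝ) ≤ ∑ i ∈ Ioc l k, ((Pa d m r k i (k * k) q c (St d m r i)).card : ℝ) := h1
    _ ≤ (Ioc l k).card • W := sum_le_card_nsmul _ _ _ h2
    _ = ((k - l : ℕ) : ℝ) * W := by rw [Nat.card_Ioc, nsmul_eq_mul]
    _ ≤ k * W := by
        apply mul_le_mul_of_nonneg_right _ hW0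
        exact_mod_cast Nat.sub_le _ _

end Pool.Agent.H828R3.GP
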